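import Pool.Agent.H84.FK.Targets3

/-!
# Board fk2, module Z5C: the odd part of `M` is trivial
-/

set_option autoImplicit false
set_option linter.unusedVariables false

open Pool.Agent.H84.FK

namespace Pool.Agent.H33.FK

/-- an element of odd order is in a subgroup if its square is -/
theorem odd_mem {G : Type} [Group G] (H : Subgroup G) {x : G} (hx : ¬ 2 ∣ orderOf x)
    (h : x * x ∈ H) : x ∈ H := by
  have h1 : Odd (orderOf x) := Nat.not_even_iff_odd.1 fun h => hx (even_iff_two_dvd.1 h)
  obtain ⟨k, hk⟩ := h1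
  have h2 : x = (x * x) ^ (k + 1) := by
    rw [← sq, ← pow_mul]
    have h3 : 2 * (k + 1) = orderOf x + 1 := by omega
    rw [h3, pow_succ, pow_orderOf_eq_one, one_mul]
  rw [h2]
  exact H.pow_mem h _

/-- the elements of odd order of an abelian subgroup -/
def oddPart {G : Type} [Group G] (A0 : Subgroup G) (hA : Ab A0) : Subgroup G where
  carrier := {x | x ∈ A0 ∧ ¬ 2 ∣ orderOf x}
  one_mem' := ⟨A0.one_mem, by rw [orderOf_one]; decide⟩
  mul_mem' := by
    rintro x y ⟨hx, hx2⟩ ⟨hy, hy2⟩
    refine ⟨A0.mul_mem hx hy, fun h => ?_⟩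
    have hc : Commute x y := hA x hx y hy
    have h1 := h.trans hc.orderOf_mul_dvd_lcm
    have h2 := h1.trans (Nat.lcm_dvd_mul _ _)
    rcases (Nat.Prime.dvd_mul Nat.prime_two).1 h2 with h3 | h3
    · exact hx2 h3
    · exact hy2 h3
  inv_mem' := by
    rintro x ⟨hx, hx2⟩
    exact ⟨A0.inv_mem hx, by rwa [orderOf_inv]⟩

theorem mem_oddPart {G : Type} [Group G] {A0 : Subgroup G} {hA : Ab A0} {x : G} :
    x ∈ oddPart A0 hA ↔ x ∈ A0 ∧ ¬ 2 ∣ orderOf x := Iff.rfl

theorem pf_z5c (hLA : T_LA) (hD4 : T_D4) : T_Z5C := by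
  intro G _ A A0 B B0 M u d c z hv x hxM hx2
  have hA0A : A0 ≤ A := c.twoA.1
  have hAM : A ≤ M := fun a ha => (z.mem a).2 (Or.inl ha)
  have hdi : d⁻¹ = d := by
    rw [inv_eq_iff_mul_eq_one]
    exact z.d2
  have hdM : d ∈ M := (z.mem d).2 (Or.inr (by rw [z.d2]; exact A.one_mem))
  -- squares of elements of `M`
  have hsq : ∀ m : G, m * d ∈ A → m * m = (m * d) * (d * (m * d) * d⁻¹) := by
    intro m _
    have h1 : d * (m * d) * d⁻¹ = d * m := by group
    rw [h1, mul_assoc, ← mul_assoc d d m, z.d2, one_mul]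
  have hsqA : ∀ m ∈ M, m * m ∈ A := by
    intro m hm
    rcases (z.mem m).1 hm with h | h
    · exact A.mul_mem h h
    · rw [hsq m h]
      exact A.mul_mem h (z.nrm _ h)
  have hodd : ∀ y ∈ M, ¬ 2 ∣ orderOf y → y ∈ A0 := by
    intro y hy h2
    have h3 : y ∈ A := odd_mem A h2 (hsqA y hy)
    refine odd_mem A0 h2 ?_
    by_cases h4 : y ∈ A0
    · exact A0.mul_mem h4 h4
    · exact c.twoA.2 y h3 y h3 h4 h4
  have hL : LAH G M B0 (oddPart A0 c.abA) u := by
    refine ⟨c.fin, z.u2, z.cen, z.fac, c.abB, z.int, ?_, ?_, ?_, ?_⟩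
    · intro y
      rw [mem_oddPart]
      exact ⟨fun h => ⟨hAM (hA0A h.1), h.2⟩, fun h => ⟨hodd y h.1 h.2, h.2⟩⟩
    · intro y hy y' hy'
      exact c.abA y (mem_oddPart.1 hy).1 y' (mem_oddPart.1 hy').1
    · intro m hm y hy
      obtain ⟨hyA, hy2⟩ := mem_oddPart.1 hy
      by_cases hmA : m ∈ A
      · have h1 : m * m ∈ A0 := by
          by_cases h4 : m ∈ A0
          · exact A0.mul_mem h4 h4
          · exact c.twoA.2 m hmA m hmA h4 h4
        exact c.abA _ h1 _ hyA
      · have hmd : m * d ∈ A := ((z.mem m).1 hm).resolve_left hmA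
        by_cases h : ∀ a0 ∈ A0, d * a0 * d⁻¹ ∈ A0
        · have h1 : m * m ∈ A0 := by
            rw [hsq m hmd]
            by_cases h4 : m * d ∈ A0
            · exact A0.mul_mem h4 (h _ h4)
            · refine c.twoA.2 _ hmd _ (z.nrm _ hmd) h4 fun h5 => h4 ?_
              have h6 := h _ h5
              have h7 : d * (d * (m * d) * d⁻¹) * d⁻¹ = m * d := by
                rw [hdi]
                have : d * (d * (m * d) * d) * d = (d * d) * (m * d) * (d * d) := by group
                rw [this, z.d2, one_mul, mul_one]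
              rwa [h7] at h6
          exact c.abA _ h1 _ hyA
        · push_neg at h
          obtain ⟨a0, ha0, ha1⟩ := h
          have ha1A : d * a0 * d⁻¹ ∈ A := z.nrm _ (hA0A ha0)
          have hyd : d⁻¹ * y * d ∈ A0 := by
            refine hodd _ (M.mul_mem (M.mul_mem (M.inv_mem hdM) (hAM (hA0A hyA))) hdM) ?_
            have h8 : orderOf (d⁻¹ * y * d) = orderOf y := by
              have h9 := orderOf_injective (MulAut.conj d⁻¹).toMonoidHom
                (MulAut.conj d⁻¹).injective y
              have h10 : (MulAut.conj d⁻¹).toMonoidHom y = d⁻¹ * y * d := by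
                simp
              rwa [h10] at h9
            rwa [h8]
          have hc1 : (d * a0 * d⁻¹) * y = y * (d * a0 * d⁻¹) := by
            have h9 := c.abA _ hyd _ ha0
            have h10 : (d * a0 * d⁻¹) * y = d * (a0 * (d⁻¹ * y * d)) * d⁻¹ := by group
            have h11 : y * (d * a0 * d⁻¹) = d * ((d⁻¹ * y * d) * a0) * d⁻¹ := by group
            rw [h10, h11, h9]
          have hall : ∀ a' ∈ A, a' * y = y * a' := by
            intro a' ha'
            by_cases h4 : a' ∈ A0
            · exact c.abA _ h4 _ hyA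
            · have h5 := c.twoA.2 a' ha' _ ha1A h4 ha1
              have h6 := c.abA _ h5 _ hyA
              have hC : Commute (a' * (d * a0 * d⁻¹)) y := h6
              have hC1 : Commute (d * a0 * d⁻¹) y := hc1
              have hC2 : Commute (a' * (d * a0 * d⁻¹) * (d * a0 * d⁻¹)⁻¹) y :=
                hC.mul_left hC1.inv_left
              rw [mul_inv_cancel_right] at hC2
              exact hC2
          exact hall _ (hsqA m hm)
    · intro X hX hne hn g hg
      exact z.nor X (fun y hy => hAM (hA0A (mem_oddPart.1 (hX hy)).1)) hne hn g hg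
  have hU := hLA G M B0 (oddPart A0 c.abA) u hL hv
  have hxU : x ∈ oddPart A0 c.abA := mem_oddPart.2 ⟨hodd x hxM hx2, hx2⟩
  rw [hU] at hxU
  exact Subgroup.mem_bot.1 hxU

end Pool.Agent.H33.FK
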